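import Pool.Agent.L5helper33.TSFinal

set_option autoImplicit false

namespace Pool.Agent.Results.MP_ea5d3c_co.LogarithmicBound

open Filter Topology

/-- The set `S` is independent in the hypergraph with edge set `H`: it contains no edge. -/
def Indep {n : ℕ} (H : Finset (Finset (Fin n))) (S : Finset (Fin n)) : Prop :=
  ∀ e ∈ H, ¬ e ⊆ S

/-- `T(n,k,r)`: the least number of edges of an `r`-graph on `n` vertices all of whose
independent sets have fewer than `k` elements. -/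
noncomputable def T (n k r : ℕ) : ℕ :=
  sInf {m : ℕ | ∃ H : Finset (Finset (Fin n)), (∀ e ∈ H, e.card = r) ∧
    (∀ S : Finset (Fin n), Indep H S → S.card < k) ∧ H.card = m}

/-- The Turán density `t(k,r)`, the limit of `T(n,k,r) / C(n,r)` as `n → ∞`. -/
noncomputable def t (k r : ℕ) : ℝ :=
  limUnder atTop (fun n : ℕ => (T n k r : ℝ) / (n.choose r : ℝ))

/-- The rescaled Turán density `t_*(α+1,r) = α^(r-1) / r! * t(α+1,r)`. -/
noncomputable def tRescaled (α r : ℕ) : ℝ := (α : ℝ) ^ (r - 1) / r.factorial * t (α + 1) r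

/-- `t_*(r)`, the limit of `t_*(α+1,r)` as `α → ∞`. -/
noncomputable def tStar (r : ℕ) : ℝ := limUnder atTop (fun α : ℕ => tRescaled α r)

open L5H33 in
lemma T_eq (n k r : ℕ) : T n k r = TS.turanNumber n k r := by
  unfold T TS.turanNumber TS.IsTuran
  congr 1
  ext m
  constructor
  · rintro ⟨H, h1, h2, h3⟩; exact ⟨H, ⟨h1, h2⟩, h3⟩
  · rintro ⟨H, ⟨h1, h2⟩, h3⟩; exact ⟨H, h1, h2, h3⟩

open L5H33 in
lemma ratio_eq (k r : ℕ) :
    (fun n : ℕ => (T n k r : ℝ) / (n.choose r : ℝ)) = TS.ratio k r := by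
  funext n
  rw [T_eq]
  rfl

open L5H33 in
lemma t_eq (k r : ℕ) : t k r = TS.turanDensity k r := by
  unfold t TS.turanDensity
  rw [ratio_eq]

open L5H33 in
lemma tRescaled_eq (r : ℕ) : (fun α : ℕ => tRescaled α r) = TS.rescaled r := by
  funext α
  unfold tRescaled TS.rescaled
  rw [t_eq]

open L5H33 in
lemma tStar_eq (r : ℕ) : tStar r = TS.tStar r := by
  unfold tStar TS.tStar
  rw [tRescaled_eq]

lemma eventually_small (ε : ℝ) (hε : 0 < ε) :
    ∀ᶠ r : ℕ in atTop, Real.log (Real.log r) + 11 / 2 ≤ ε * Real.log r := by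
  have hlog : Tendsto (fun r : ℕ => Real.log (r : ℝ)) atTop atTop :=
    Real.tendsto_log_atTop.comp tendsto_natCast_atTop_atTop
  have h1 : ∀ᶠ x : ℝ in atTop, ‖Real.log x‖ ≤ (ε / 2) * ‖x‖ :=
    Real.isLittleO_log_id_atTop.def (by positivity)
  have h2 : ∀ᶠ x : ℝ in atTop, 11 / ε ≤ x := eventually_ge_atTop _
  have h3 : ∀ᶠ x : ℝ in atTop, (0 : ℝ) < x := eventually_gt_atTop _
  filter_upwards [hlog.eventually h1, hlog.eventually h2, hlog.eventually h3] with r e1 e2 e3
  rw [Real.norm_eq_abs, Real.norm_eq_abs, abs_of_pos e3] at e1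
  have e4 := le_abs_self (Real.log (Real.log r))
  have e5 : 11 / 2 ≤ (ε / 2) * Real.log r := by
    rw [div_le_iff₀ hε] at e2
    linarith
  linarith

/-- The limits defining `t(k,r)` and `t_*(r)` exist, and
`t_*(r) ≤ log r + log log r + 11/2` for every `r ≥ 3`; hence `t_*(r) ≤ (1 + ε) log r` for all
large `r`. -/
theorem result :
    (∀ k r : ℕ, r < k →
      Tendsto (fun n : ℕ => (T n k r : ℝ) / (n.choose r : ℝ)) atTop (𝓝 (t k r))) ∧
    (∀ r : ℕ, 2 ≤ r → Tendsto (fun α : ℕ => tRescaled α r) atTop (𝓝 (tStar r))) ∧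
    (∀ r : ℕ, 3 ≤ r → tStar r ≤ Real.log r + Real.log (Real.log r) + 11 / 2) ∧
    (∀ ε : ℝ, 0 < ε → ∀ᶠ r : ℕ in atTop, tStar r ≤ (1 + ε) * Real.log r) := by
  have h3 : ∀ r : ℕ, 3 ≤ r → tStar r ≤ Real.log r + Real.log (Real.log r) + 11 / 2 := by
    intro r hr
    rw [tStar_eq]
    exact L5H33.TS.tStar_le_log r hr
  refine ⟨?_, ?_, h3, ?_⟩
  · intro k r hk
    rw [ratio_eq, t_eq]
    exact L5H33.TS.tendsto_turanDensity k r hk
  · intro r hr
    rw [tRescaled_eq, tStar_eq]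
    exact L5H33.TS.tendsto_tStar r (by omega)
  · intro ε hε
    filter_upwards [eventually_small ε hε, eventually_ge_atTop 3] with r e1 e2
    have := h3 r e2
    linarith

end Pool.Agent.Results.MP_ea5d3c_co.LogarithmicBound
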